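import Mathlib

set_option autoImplicit false
open Matrix Finset Polynomial

namespace Pool.Agent.Results.MP_e39433_co.LevelSq

/-- The walk matrix. -/
def W {n : ℕ} (G : SimpleGraph (Fin n)) [DecidableRel G.Adj] : Matrix (Fin n) (Fin n) ℤ :=
  fun i j => ((G.adjMatrix ℤ ^ (j : ℕ)) *ᵥ fun _ => 1) i

/-- Rational regular orthogonal matrices conjugating the adjacency matrix to a zero-one matrix. -/
def QSet {n : ℕ} (G : SimpleGraph (Fin n)) [DecidableRel G.Adj] : Set (Matrix (Fin n) (Fin n) ℚ) :=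
  {Q | Qᵀ * Q = 1 ∧ (Q *ᵥ fun _ => 1) = (fun _ => 1) ∧
    ∀ i j, (Qᵀ * G.adjMatrix ℚ * Q) i j = 0 ∨ (Qᵀ * G.adjMatrix ℚ * Q) i j = 1}

/-- The least positive integer clearing all denominators. -/
noncomputable def level {n : ℕ} (Q : Matrix (Fin n) (Fin n) ℚ) : ℕ :=
  sInf {k : ℕ | 0 < k ∧ ∀ i j, ∃ z : ℤ, k * Q i j = z}

def Z : Subring ℚ := (Int.castRingHom ℚ).range

variable {n : ℕ}

def c (M : Matrix (Fin n) (Fin n) ℤ) : Matrix (Fin n) (Fin n) ℚ := (Int.castRingHom ℚ).mapMatrix M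

theorem ze {a b : ℚ} (h : b ∈ Z) (e : a = b) : a ∈ Z := e ▸ h

theorem zi (z : ℤ) : (z : ℚ) ∈ Z := ⟨z, rfl⟩

theorem cm (M : Matrix (Fin n) (Fin n) ℤ) {v : Fin n → ℚ} (h : ∀ i, v i ∈ Z) (i : Fin n) :
    (c M *ᵥ v) i ∈ Z := by
  rw [mulVec, dotProduct]
  exact sum_mem fun j _ => mul_mem (zi _) (h j)

theorem ca (M : Matrix (Fin n) (Fin n) ℤ) (p : ℤ[X]) : aeval (c M) p = c (aeval M p) :=
  aeval_algHom_apply ((Int.castRingHom ℚ).mapMatrix (m := Fin n)).toIntAlgHom M p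

theorem sym {A : Matrix (Fin n) (Fin n) ℚ} (h : Aᵀ = A) (p : ℤ[X]) (u v : Fin n → ℚ) :
    aeval A p *ᵥ u ⬝ᵥ v = u ⬝ᵥ aeval A p *ᵥ v := by
  have : (aeval A p)ᵀ = aeval A p := by
    rw [aeval_eq_sum_range, transpose_sum]
    simp only [transpose_smul, transpose_pow, h]
  rw [dotProduct_mulVec, ← mulVec_transpose, this]

theorem gen (A : Matrix (Fin (n + 1)) (Fin (n + 1)) ℤ) (h : (c A)ᵀ = c A) (e w : Fin (n + 1) → ℚ)
    (hw : ∀ i : Fin (n + 1), w ⬝ᵥ (c A ^ (i : ℕ)) *ᵥ e = if i = Fin.last n then 1 else 0)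
    (inj : ∀ v, (∀ i : Fin (n + 1), v ⬝ᵥ (c A ^ (i : ℕ)) *ᵥ e = 0) → v = 0) (v : Fin (n + 1) → ℚ)
    (hv : ∀ i : Fin (n + 1), v ⬝ᵥ (c A ^ (i : ℕ)) *ᵥ e ∈ Z) : ∃ b : ℤ[X], v = aeval (c A) b *ᵥ w := by
  have hk : ∀ k, w ⬝ᵥ (c A ^ k) *ᵥ e ∈ Z := fun k => by
    have : c A ^ k = aeval (c A) (X ^ k %ₘ A.charpoly) := by
      rw [ca, ← pow_eq_aeval_mod_charpoly, c, c, map_pow]
    rw [this, aeval_eq_sum_range' (n := n + 1) (by
      simpa using natDegree_modByMonic_lt (X ^ k) A.charpoly_monic fun h => by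
        simpa [h] using A.charpoly_natDegree_eq_dim), sum_mulVec, dotProduct_sum, sum_range]
    refine sum_mem fun i _ => ?_
    rw [smul_mulVec, dotProduct_smul, hw]
    exact zsmul_mem (by split_ifs; exacts [one_mem _, zero_mem _]) _
  have pw : ∀ j i : ℕ, aeval (c A) (X ^ j : ℤ[X]) *ᵥ w ⬝ᵥ (c A ^ i) *ᵥ e =
      w ⬝ᵥ (c A ^ (j + i)) *ᵥ e := fun j i => by
    rw [sym h, mulVec_mulVec, map_pow, aeval_X, pow_add]
  suffices ∀ t ≤ n + 1, ∀ v : Fin (n + 1) → ℚ, (∀ i : Fin (n + 1), v ⬝ᵥ (c A ^ (i : ℕ)) *ᵥ e ∈ Z) →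
      (∀ i : Fin (n + 1), i + t < n + 1 → v ⬝ᵥ (c A ^ (i : ℕ)) *ᵥ e = 0) →
      ∃ b : ℤ[X], v = aeval (c A) b *ᵥ w from this _ le_rfl v hv fun i hi => by omega
  intro t
  induction t with
  | zero => exact fun _ v _ h => ⟨0, by simp [inj v fun i => h i i.2]⟩
  | succ t ih =>
    intro ht v h1 h2
    obtain ⟨z, hz⟩ := h1 ⟨n - t, by omega⟩
    obtain ⟨b, hb⟩ := ih (by omega) (v - z • aeval (c A) (X ^ t : ℤ[X]) *ᵥ w) (fun i => by
      rw [sub_dotProduct, smul_dotProduct, pw]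
      exact sub_mem (h1 i) (zsmul_mem (hk _) _)) fun i hi => by
        rw [sub_dotProduct, smul_dotProduct, pw]
        have := hw ⟨t + i, by omega⟩
        by_cases k : t + i = n
        · rw [this, if_pos (Fin.ext k), show i = ⟨n - t, by omega⟩ from Fin.ext (by simp; omega), ← hz]
          simp
        · rw [this, if_neg fun x => k (congrArg Fin.val x), h2 i (by omega)]; simp
    exact ⟨b + z • X ^ t, by rw [map_add, add_mulVec, ← hb, map_zsmul, smul_mulVec]; simp⟩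

theorem result (m : ℕ) (G : SimpleGraph (Fin (m + 2))) [DecidableRel G.Adj]
    (U V : (Matrix (Fin (m + 2)) (Fin (m + 2)) ℤ)ˣ) (d : Fin (m + 2) → ℕ) (hd : ∀ i, 0 < d i)
    (hdvd : ∀ i j, i ≤ j → d i ∣ d j) (hW : W G = U * diagonal (fun i => (d i : ℤ)) * V)
    (L : ℕ) (hL : ∀ k, L ∣ k ↔ ∀ Q ∈ QSet G, level Q ∣ k) (p : ℕ) (hp : p.Prime) :
    2 * padicValNat p L ≤
      padicValNat p (d (Fin.last (m + 1))) + padicValNat p (d (Fin.last m).castSucc) := by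
  have := Fact.mk hp
  obtain ⟨D, hD⟩ : ∃ D, D = d (Fin.last (m + 1)) * d (Fin.last m).castSucc := ⟨_, rfl⟩
  have D0 : D ≠ 0 := hD ▸ (mul_pos (hd _) (hd _)).ne'
  suffices L ^ 2 ∣ D by
    have L0 : L ≠ 0 := by rintro rfl; simp [D0] at this
    rw [← padicValNat.mul (hd _).ne' (hd _).ne', ← hD, ← padicValNat.pow, ← padicValNat_dvd_iff_le D0]
    exact pow_padicValNat_dvd.trans this
  rw [Nat.pow_dvd_iff_dvd_floorRoot, hL]
  rintro Q ⟨q1, q2, q3⟩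
  suffices ∀ i j, D * Q i j ^ 2 ∈ Z by
    have hr : ∀ i j, ∃ z : ℤ, Nat.floorRoot 2 D * Q i j = z := fun i j => by
      obtain ⟨z, hz⟩ := this i j
      obtain ⟨s, hs⟩ : (Q i j).den ∣ Nat.floorRoot 2 D := by
        rw [← Nat.pow_dvd_iff_dvd_floorRoot]
        refine ((Q i j).reduced.symm.pow 2 2).dvd_of_dvd_mul_right ⟨z.natAbs, ?_⟩
        have : (D * (Q i j).num ^ 2 : ℤ) = (Q i j).den ^ 2 * z := by
          have h := Rat.mul_den_eq_num (Q i j)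
          simp only [eq_intCast] at hz
          exact_mod_cast (by rw [← h, hz]; ring : (D * (Q i j).num ^ 2 : ℚ) = (Q i j).den ^ 2 * z)
        simpa [Int.natAbs_mul, Int.natAbs_pow] using congrArg Int.natAbs this
      exact ⟨s * (Q i j).num, by rw [hs]; push_cast; rw [← Rat.mul_den_eq_num]; ring⟩
    have r0 := Nat.floorRoot_ne_zero.mpr ⟨two_ne_zero, D0⟩
    generalize Nat.floorRoot 2 D = r at *
    obtain ⟨l0, l1⟩ := Nat.sInf_mem (s := {k : ℕ | 0 < k ∧ ∀ i j, ∃ z : ℤ, k * Q i j = z})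
      ⟨r, by omega, hr⟩
    by_contra h
    refine Nat.notMem_of_lt_sInf (Nat.mod_lt r l0) ⟨Nat.pos_of_ne_zero fun x =>
      h (Nat.dvd_of_mod_eq_zero x), fun i j => ?_⟩
    obtain ⟨a, ha⟩ := hr i j
    obtain ⟨b, hb⟩ := l1 i j
    refine ⟨a - (r / level Q : ℕ) * b, ?_⟩
    have := congrArg (Nat.cast : ℕ → ℚ) (Nat.mod_add_div r (level Q))
    simp only [Nat.cast_add, Nat.cast_mul, Int.cast_sub, Int.cast_mul, Int.cast_natCast] at this ⊢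
    rw [← ha, ← hb, ← this]
    unfold level; ring
  obtain ⟨A, hA⟩ : ∃ A, A = G.adjMatrix ℤ := ⟨_, rfl⟩
  have a1 : G.adjMatrix ℚ = c A := by ext i j; simp [c, hA]
  have a2 : (c A)ᵀ = c A := by rw [← a1]; exact G.transpose_adjMatrix
  have a3 : ∀ (v : Fin (m + 2) → ℚ) (i : Fin (m + 2)), (v ⬝ᵥ (c A ^ (i : ℕ)) *ᵥ fun _ => 1) =
      ((c V)ᵀ *ᵥ fun j => d j * ((c U)ᵀ *ᵥ v) j) i := fun v i => by
    have : (v ⬝ᵥ (c A ^ (i : ℕ)) *ᵥ fun _ => 1) = ((c (W G))ᵀ *ᵥ v) i := by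
      rw [c, ← map_pow]
      simp [W, c, mulVec, dotProduct, hA, mul_comm]
    rw [this, hW]
    simp only [c, map_mul, transpose_mul, ← mulVec_mulVec]
    congr 2
    ext j; simp [mulVec_diagonal]
  have iv : ∀ T : (Matrix (Fin (m + 2)) (Fin (m + 2)) ℤ)ˣ, ∀ v, c (T⁻¹.1)ᵀ *ᵥ ((c T)ᵀ *ᵥ v) = v :=
    fun T v => by
      rw [mulVec_mulVec, show c (T⁻¹.1)ᵀ = (c T⁻¹.1)ᵀ from rfl, ← transpose_mul, c, c, ← map_mul]
      simp
  have iv' : ∀ T : (Matrix (Fin (m + 2)) (Fin (m + 2)) ℤ)ˣ, ∀ v, (c T)ᵀ *ᵥ (c (T⁻¹.1)ᵀ *ᵥ v) = v :=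
    fun T => iv T⁻¹
  have d0 : ∀ j, (d j : ℚ) ≠ 0 := fun j => by exact_mod_cast (hd j).ne'
  obtain ⟨w, hw⟩ : ∃ w : Fin (m + 2) → ℚ, ∀ i : Fin (m + 2),
      (w ⬝ᵥ (c A ^ (i : ℕ)) *ᵥ fun _ => 1) = if i = Fin.last _ then 1 else 0 :=
    ⟨c (U⁻¹.1)ᵀ *ᵥ fun j => (c (V⁻¹.1)ᵀ *ᵥ fun i => if i = Fin.last _ then 1 else 0) j / d j,
      fun i => by simp only [a3, iv', mul_div_cancel₀ _ (d0 _)]⟩
  have g := gen A a2 _ w hw fun v h => by
    have := iv V fun j => d j * ((c U)ᵀ *ᵥ v) j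
    rw [show (c V)ᵀ *ᵥ _ = 0 from funext fun i => (a3 v i).symm.trans (h i), mulVec_zero] at this
    rw [← iv U v, show (c U)ᵀ *ᵥ v = 0 from funext fun j => by
      simpa [d0 j] using (congrFun this j).symm, mulVec_zero]
  have dz : ∀ v : Fin (m + 2) → ℚ, (∀ i : Fin (m + 2), (v ⬝ᵥ (c A ^ (i : ℕ)) *ᵥ fun _ => 1) ∈ Z) →
      ∀ j, d j * ((c U)ᵀ *ᵥ v) j ∈ Z := fun v h j => by
    rw [← congrFun (iv V fun j => d j * ((c U)ᵀ *ᵥ v) j) j]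
    exact cm _ (fun i => a3 v i ▸ h i) j
  have ip : ∀ v y : Fin (m + 2) → ℚ, v ⬝ᵥ y = ∑ j, ((c U)ᵀ *ᵥ v) j * (c U⁻¹.1 *ᵥ y) j := fun v y => by
    conv_lhs => rw [← iv U v, show c (U⁻¹.1)ᵀ = (c U⁻¹.1)ᵀ from rfl, mulVec_transpose,
      ← dotProduct_mulVec]
    rfl
  let B : Matrix (Fin (m + 2)) (Fin (m + 2)) ℤ := fun i j => if (Qᵀ * c A * Q) i j = 0 then 0 else 1
  have b1 : Qᵀ * c A * Q = c B := by
    ext i j
    show _ = ((B i j : ℤ) : ℚ)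
    rcases a1 ▸ q3 i j with h | h <;> simp [B, h]
  have q4 : Q * Qᵀ = 1 := mul_eq_one_comm.mp q1
  have b2 : ∀ k, Qᵀ * c A ^ k * Q = c B ^ k := fun k => by
    induction k with
    | zero => simp [q1]
    | succ k ih =>
      rw [pow_succ, pow_succ, ← ih, ← b1]
      simp only [mul_assoc]
      rw [← mul_assoc Q, q4, one_mul]
  intro i j
  have hx : ∀ t : Fin (m + 2), (Qᵀ j ⬝ᵥ (c A ^ (t : ℕ)) *ᵥ fun _ => 1) ∈ Z := fun t => by
    have : (Qᵀ j ⬝ᵥ (c A ^ (t : ℕ)) *ᵥ fun _ => 1) = (c (B ^ (t : ℕ)) *ᵥ fun _ => 1) j := by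
      rw [c, c, map_pow, ← c, ← c, ← b2, ← mulVec_mulVec, q2, ← mulVec_mulVec]; rfl
    exact this ▸ cm _ (fun _ => one_mem _) _
  have y1 : ∀ t, (Pi.single i 1 : Fin (m + 2) → ℚ) t ∈ Z := fun t => by
    rw [Pi.single_apply]; split_ifs; exacts [one_mem _, zero_mem _]
  obtain ⟨b, hb⟩ := g _ hx
  obtain ⟨f, hf⟩ := g (Pi.single i 1) fun t => by
    rw [single_one_dotProduct, c, ← map_pow]; exact cm _ (fun _ => one_mem _) _
  have k1 : w ⬝ᵥ aeval (c A) b *ᵥ Pi.single i 1 = Q i j := by rw [← sym a2, ← hb]; simp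
  have k2 : Qᵀ j ⬝ᵥ aeval (c A) b *ᵥ Pi.single i 1 ∈ Z := by
    have : Qᵀ j ⬝ᵥ aeval (c A) f *ᵥ Qᵀ j = c (aeval B f) j j := by
      rw [← ca, aeval_eq_sum_range, aeval_eq_sum_range, sum_mulVec, dotProduct_sum, Matrix.sum_apply]
      refine sum_congr rfl fun k _ => ?_
      rw [smul_mulVec, dotProduct_smul, ← b2, mul_assoc]; rfl
    rw [hf, mulVec_mulVec, ← map_mul, mul_comm b, map_mul, ← mulVec_mulVec, ← hb, this]
    exact zi _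
  have z1 : ∀ t, (aeval (c A) b *ᵥ Pi.single i 1) t ∈ Z := ca A b ▸ cm _ y1
  generalize aeval (c A) b *ᵥ Pi.single i 1 = z at *
  have hw' := dz w fun t => by rw [hw]; split_ifs; exacts [one_mem _, zero_mem _]
  have k3 : D * (w ⬝ᵥ Pi.single i 1) ∈ Z := by
    rw [ip, mul_sum]
    refine sum_mem fun s _ => ?_
    obtain ⟨u, hu⟩ := (hdvd s _ (Fin.le_last s)).mul_right (d (Fin.last m).castSucc)
    rw [hD, hu, Nat.cast_mul, mul_comm (d s : ℚ), mul_assoc, ← mul_assoc (d s : ℚ)]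
    exact mul_mem (natCast_mem _ _) (mul_mem (hw' s) (cm _ y1 s))
  have k4 : D * (w ⬝ᵥ Pi.single i 1 * (Qᵀ j ⬝ᵥ z) - w ⬝ᵥ z * (Qᵀ j ⬝ᵥ Pi.single i 1)) ∈ Z := by
    simp only [ip, sum_mul_sum, ← sum_sub_distrib]
    simp only [mul_sum]
    refine sum_mem fun s _ => sum_mem fun t _ => ?_
    by_cases st : s = t
    · subst st; exact ze (zero_mem _) (by ring)
    · obtain ⟨u, hu⟩ : d s * d t ∣ D := by
        rw [hD]
        rcases lt_or_gt_of_ne st with h | h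
        · rw [mul_comm]
          exact mul_dvd_mul (hdvd _ _ (Fin.le_last _)) (hdvd _ _ (by simp [Fin.le_def]; omega))
        · exact mul_dvd_mul (hdvd _ _ (Fin.le_last _)) (hdvd _ _ (by simp [Fin.le_def]; omega))
      have := mul_mem (natCast_mem Z u) (mul_mem (mul_mem (hw' s) (dz _ hx t)) (sub_mem
        (mul_mem (cm U⁻¹.1 y1 s) (cm U⁻¹.1 z1 t)) (mul_mem (cm U⁻¹.1 z1 s) (cm U⁻¹.1 y1 t))))
      exact ze this (by rw [hu]; push_cast; ring)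
  have := sub_mem (mul_mem k3 k2) k4
  rw [k1, dotProduct_single_one (Qᵀ j)] at this
  rw [show D * Q i j ^ 2 = D * (w ⬝ᵥ Pi.single i 1) * (Qᵀ j ⬝ᵥ z) - D * (w ⬝ᵥ Pi.single i 1 *
    (Qᵀ j ⬝ᵥ z) - Q i j * Qᵀ j i) by rw [transpose_apply]; ring]
  exact this

end Pool.Agent.Results.MP_e39433_co.LevelSq
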